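import Pool.Agent.Helper99.MKV.GoalsR

/-! # MKV, packet ANN: averaging over the unread cookies -/

open Finset MeasureTheory ProbabilityTheory Filter
open scoped ENNReal

namespace Pool.Agent.Helper38.MKV

open Pool.Agent.Helper99.MKV Pool.Agent.Helper99.ERW

section

variable {E : Type} [Fintype E] [MeasurableSpace E] [MeasurableSingletonClass E]
  {p : E → E → ℝ} {f : E → ℝ}

omit [MeasurableSpace E] [MeasurableSingletonClass E] in
theorem ok_chS (hp : Stoch p) (hf : ∀ e, 0 ≤ f e ∧ f e ≤ 1) : (chS p f).Ok :=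
  ⟨fun _ e i => hp.1 e i, fun _ e => hp.2 e, fun _ e => (hf e).1, fun _ e => (hf e).2⟩

omit [MeasurableSpace E] [MeasurableSingletonClass E] in
theorem hpM_nonneg (hU : (chS p f).Ok) (N : ℕ) (s : MSt E) : 0 ≤ hp (chS p f) N s := by
  induction N generalizing s with
  | zero =>
    unfold hp
    split_ifs <;> norm_num
  | succ N ih =>
    unfold hp
    split_ifs
    · norm_num
    · have := stp_mono hU (F := fun _ => 0) (G := hp (chS p f) N) (s := s) (fun i e => ih _)
      rwa [stp_const hU] at this

omit [Fintype E] [MeasurableSpace E] [MeasurableSingletonClass E] in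
theorem hpE_nonneg (hf : ∀ e, 0 ≤ f e ∧ f e ≤ 1) (ξ : Site 2 → ℕ → E) (N : ℕ)
    (s : Pool.Agent.Helper99.EXC.St) :
    0 ≤ Pool.Agent.Helper99.EXC.hp (fun z i => f (ξ z i)) N s := by
  induction N generalizing s with
  | zero =>
    unfold Pool.Agent.Helper99.EXC.hp
    split_ifs <;> norm_num
  | succ N ih =>
    unfold Pool.Agent.Helper99.EXC.hp
    split_ifs
    · norm_num
    · unfold Pool.Agent.Helper99.EXC.stp
      have h1 := (hf (ξ s.1 (s.2 s.1))).1
      have h2 := (hf (ξ s.1 (s.2 s.1))).2
      have a := ih (Pool.Agent.Helper99.EXC.nxt s (0, true))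
      have b := ih (Pool.Agent.Helper99.EXC.nxt s (0, false))
      have c := ih (Pool.Agent.Helper99.EXC.nxt s (1, true))
      have d := ih (Pool.Agent.Helper99.EXC.nxt s (1, false))
      have h3 : 0 ≤ (1 - f (ξ s.1 (s.2 s.1))) / 2 := by linarith
      positivity

theorem measE (N : ℕ) (x : Site 2) (L : Site 2 → ℕ) :
    Measurable fun ξ : Site 2 → ℕ → E =>
      Pool.Agent.Helper99.EXC.hp (fun z i => f (ξ z i)) N (x, L) := by
  induction N generalizing x L with
  | zero =>
    unfold Pool.Agent.Helper99.EXC.hp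
    exact measurable_const
  | succ N ih =>
    unfold Pool.Agent.Helper99.EXC.hp
    by_cases hx : x = 0
    · simp only [hx, if_true]
      exact measurable_const
    · simp only [hx, if_false]
      unfold Pool.Agent.Helper99.EXC.stp
      have hm : Measurable fun ξ : Site 2 → ℕ → E => f (ξ x (L x)) :=
        (measurable_of_countable f).comp
          ((measurable_pi_apply (L x)).comp (measurable_pi_apply x))
      have h0 := fun e : Dir 2 => ih (x + vec e) (Function.update L x (L x + 1))
      exact ((hm.div_const 2).mul ((h0 _).add (h0 _))).add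
        (((measurable_const.sub hm).div_const 2).mul ((h0 _).add (h0 _)))

theorem measM (N : ℕ) (x : Site 2) :
    Measurable fun ζ : Site 2 → E => hp (chS p f) N (x, ζ) := by
  induction N generalizing x with
  | zero =>
    unfold hp
    by_cases hx : x = 0
    · simp only [hx, if_true]
      exact measurable_const
    · simp only [hx, if_false]
      exact measurable_const
  | succ N ih =>
    unfold hp
    by_cases hx : x = 0
    · simp only [hx, if_true]
      exact measurable_const
    · simp only [hx, if_false]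
      unfold stp
      have hm : Measurable fun ζ : Site 2 → E => f (ζ x) :=
        (measurable_of_countable f).comp (measurable_pi_apply x)
      have hpm : ∀ i, Measurable fun ζ : Site 2 → E => p (ζ x) i := fun i =>
        (measurable_of_countable fun e => p e i).comp (measurable_pi_apply x)
      have h0 : ∀ (i : E) (e : Dir 2), Measurable fun ζ : Site 2 → E =>
          hp (chS p f) N (x + vec e, Function.update ζ x i) := fun i e =>
        (ih (x + vec e)).comp measurable_update_left
      refine Finset.measurable_sum _ fun i _ => ?_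
      exact (hpm i).mul (((hm.div_const 2).mul ((h0 i _).add (h0 i _))).add
        (((measurable_const.sub hm).div_const 2).mul ((h0 i _).add (h0 i _))))

/-- the basic step: the values of the cookies which are read next are averaged -/
theorem key (hMKP : MKP_stmt) {ν : Measure (Site 2 → E)} {Q : Measure (Site 2 → ℕ → E)}
    [IsProbabilityMeasure Q] (hst : Stoch p) (hF : IsField p ν Q) (N : ℕ)
    (ih : ∀ (x : Site 2) (L : Site 2 → ℕ) (G : (Site 2 → ℕ → E) → ℝ≥0∞), Measurable G →
      (∀ ξ ξ', (∀ z, ∀ j ≤ L z, ξ z j = ξ' z j) → G ξ = G ξ') →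
      ∫⁻ ξ, G ξ * ENNReal.ofReal (Pool.Agent.Helper99.EXC.hp (fun z i => f (ξ z i)) N (x, L)) ∂Q =
        ∫⁻ ξ, G ξ * ENNReal.ofReal (hp (chS p f) N (x, fun z => ξ z (L z))) ∂Q)
    (x y : Site 2) (L : Site 2 → ℕ) (G : (Site 2 → ℕ → E) → ℝ≥0∞) (hG : Measurable G)
    (hGL : ∀ ξ ξ', (∀ z, ∀ j ≤ L z, ξ z j = ξ' z j) → G ξ = G ξ') :
    ∫⁻ ξ, G ξ * ENNReal.ofReal (Pool.Agent.Helper99.EXC.hp (fun z i => f (ξ z i)) N
        (y, Function.update L x (L x + 1))) ∂Q =
      ∑ i, ∫⁻ ξ, G ξ * (ENNReal.ofReal (p (ξ x (L x)) i) *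
        ENNReal.ofReal (hp (chS p f) N (y, Function.update (fun z => ξ z (L z)) x i))) ∂Q := by
  classical
  have hL : ∀ z, L z ≤ Function.update L x (L x + 1) z := by
    intro z
    by_cases h : z = x
    · subst h; simp
    · simp [h]
  rw [ih y (Function.update L x (L x + 1)) G hG
    (fun ξ ξ' h => hGL ξ ξ' fun z j hj => h z j (hj.trans (hL z)))]
  have hup : ∀ ξ : Site 2 → ℕ → E, (fun z => ξ z (Function.update L x (L x + 1) z)) =
      Function.update (fun z => ξ z (L z)) x (ξ x (L x + 1)) := by
    intro ξ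
    funext z
    by_cases h : z = x
    · subst h; simp
    · simp [h]
  have hζ : Measurable fun ξ : Site 2 → ℕ → E => fun z => ξ z (L z) :=
    measurable_pi_lambda _ fun z => (measurable_pi_apply (L z)).comp (measurable_pi_apply z)
  have hm1 : Measurable fun ξ : Site 2 → ℕ → E => ξ x (L x + 1) :=
    (measurable_pi_apply (L x + 1)).comp (measurable_pi_apply x)
  have hms : ∀ i : E, MeasurableSet {ξ : Site 2 → ℕ → E | ξ x (L x + 1) = i} := fun i =>
    hm1 (measurableSet_singleton i)
  let H : E → (Site 2 → ℕ → E) → ℝ≥0∞ := fun i ξ =>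
    G ξ * ENNReal.ofReal (hp (chS p f) N (y, Function.update (fun z => ξ z (L z)) x i))
  have hHm : ∀ i, Measurable (H i) := fun i =>
    hG.mul (((measM N y).comp (measurable_update_left.comp hζ)).ennreal_ofReal)
  have hpt : ∀ ξ : Site 2 → ℕ → E, G ξ * ENNReal.ofReal (hp (chS p f) N
      (y, fun z => ξ z (Function.update L x (L x + 1) z))) =
      ∑ i, Set.indicator {ξ : Site 2 → ℕ → E | ξ x (L x + 1) = i} (H i) ξ := by
    intro ξ
    rw [hup ξ, Finset.sum_eq_single (ξ x (L x + 1))]
    · rw [Set.indicator_of_mem (by exact rfl)]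
    · intro i _ hi
      rw [Set.indicator_of_notMem]
      exact fun h => hi (Eq.symm h)
    · intro h
      exact absurd (Finset.mem_univ _) h
  rw [lintegral_congr hpt, lintegral_finsetSum _ fun i _ => (hHm i).indicator (hms i)]
  refine Finset.sum_congr rfl fun i _ => ?_
  rw [lintegral_indicator (hms i)]
  rw [((hMKP E p ν Q hst hF).2 L x i (H i) (hHm i) ?_)]
  · refine lintegral_congr fun ξ => ?_
    simp only [H]
    ring
  · intro ξ ξ' h
    have h1 : G ξ = G ξ' := hGL ξ ξ' h
    have h2 : (fun z => ξ z (L z)) = fun z => ξ' z (L z) := by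
      funext z
      exact h z (L z) le_rfl
    simp only [H, h1, h2]

end

theorem ANN (hMKP : MKP_stmt) : ANN_stmt := by
  classical
  intro E _ _ _ p f ν Q _ hst hf hF N
  have hU : (chS p f).Ok := ok_chS hst hf
  refine ⟨fun x => measM N x, ?_⟩
  induction N with
  | zero =>
    intro x L G hG hGL
    refine lintegral_congr fun ξ => ?_
    rfl
  | succ N ih =>
    intro x L G hG hGL
    by_cases hx : x = 0
    · refine lintegral_congr fun ξ => ?_
      unfold hp Pool.Agent.Helper99.EXC.hp
      simp [hx]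
    · have hfm : Measurable fun ξ : Site 2 → ℕ → E => f (ξ x (L x)) :=
        (measurable_of_countable f).comp
          ((measurable_pi_apply (L x)).comp (measurable_pi_apply x))
      let c0 : (Site 2 → ℕ → E) → ℝ≥0∞ := fun ξ => ENNReal.ofReal (f (ξ x (L x)) / 2)
      let c1 : (Site 2 → ℕ → E) → ℝ≥0∞ := fun ξ => ENNReal.ofReal ((1 - f (ξ x (L x))) / 2)
      have hc0 : Measurable c0 := (hfm.div_const 2).ennreal_ofReal
      have hc1 : Measurable c1 := ((measurable_const.sub hfm).div_const 2).ennreal_ofReal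
      have hζ : Measurable fun ξ : Site 2 → ℕ → E => fun z => ξ z (L z) :=
        measurable_pi_lambda _ fun z => (measurable_pi_apply (L z)).comp (measurable_pi_apply z)
      have hdep : ∀ ξ ξ' : Site 2 → ℕ → E, (∀ z, ∀ j ≤ L z, ξ z j = ξ' z j) →
          c0 ξ = c0 ξ' ∧ c1 ξ = c1 ξ' := by
        intro ξ ξ' h
        simp only [c0, c1, h x (L x) le_rfl, and_self]
      let A : Dir 2 → (Site 2 → ℕ → E) → ℝ≥0∞ := fun e ξ =>
        ENNReal.ofReal (Pool.Agent.Helper99.EXC.hp (fun z i => f (ξ z i)) N
          (x + vec e, Function.update L x (L x + 1)))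
      let B : Dir 2 → E → (Site 2 → ℕ → E) → ℝ≥0∞ := fun e i ξ =>
        ENNReal.ofReal (p (ξ x (L x)) i) *
          ENNReal.ofReal (hp (chS p f) N (x + vec e, Function.update (fun z => ξ z (L z)) x i))
      have hA : ∀ e, Measurable (A e) := fun e =>
        (measE N (x + vec e) (Function.update L x (L x + 1))).ennreal_ofReal
      have hB : ∀ e i, Measurable (B e i) := by
        intro e i
        have m1 : Measurable fun ξ : Site 2 → ℕ → E => ENNReal.ofReal (p (ξ x (L x)) i) :=
          ((measurable_of_countable fun t => p t i).comp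
            ((measurable_pi_apply (L x)).comp (measurable_pi_apply x))).ennreal_ofReal
        have m2 : Measurable fun ξ : Site 2 → ℕ → E => ENNReal.ofReal (hp (chS p f) N
            (x + vec e, Function.update (fun z => ξ z (L z)) x i)) :=
          ((measM N (x + vec e)).comp (measurable_update_left.comp hζ)).ennreal_ofReal
        exact m1.mul m2
      have hlhs : ∀ ξ : Site 2 → ℕ → E, G ξ * ENNReal.ofReal
          (Pool.Agent.Helper99.EXC.hp (fun z i => f (ξ z i)) (N + 1) (x, L)) =
          ((G ξ * c0 ξ) * A (0, true) ξ + (G ξ * c0 ξ) * A (0, false) ξ) +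
          ((G ξ * c1 ξ) * A (1, true) ξ + (G ξ * c1 ξ) * A (1, false) ξ) := by
        intro ξ
        have h1 := (hf (ξ x (L x))).1
        have h2 := (hf (ξ x (L x))).2
        have n := fun s => hpE_nonneg hf ξ N s
        unfold Pool.Agent.Helper99.EXC.hp
        simp only [hx, if_false]
        unfold Pool.Agent.Helper99.EXC.stp
        simp only [Pool.Agent.Helper99.EXC.nxt]
        rw [ENNReal.ofReal_add (mul_nonneg (by linarith) (add_nonneg (n _) (n _)))
          (mul_nonneg (by linarith) (add_nonneg (n _) (n _))),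
          ENNReal.ofReal_mul (by linarith), ENNReal.ofReal_mul (by linarith),
          ENNReal.ofReal_add (n _) (n _), ENNReal.ofReal_add (n _) (n _)]
        simp only [A, c0, c1]
        ring
      have hrhs : ∀ ξ : Site 2 → ℕ → E, G ξ * ENNReal.ofReal
          (hp (chS p f) (N + 1) (x, fun z => ξ z (L z))) =
          ((∑ i, (G ξ * c0 ξ) * B (0, true) i ξ) + (∑ i, (G ξ * c0 ξ) * B (0, false) i ξ)) +
          ((∑ i, (G ξ * c1 ξ) * B (1, true) i ξ) + (∑ i, (G ξ * c1 ξ) * B (1, false) i ξ)) := by
        intro ξ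
        have h1 := (hf (ξ x (L x))).1
        have h2 := (hf (ξ x (L x))).2
        have n := fun s => hpM_nonneg hU N s
        unfold hp
        simp only [hx, if_false]
        unfold stp
        change G ξ * ENNReal.ofReal (∑ i, p (ξ x (L x)) i *
          (f (ξ x (L x)) / 2 * (hp (chS p f) N (x + vec (0, true),
              Function.update (fun z => ξ z (L z)) x i) +
            hp (chS p f) N (x + vec (0, false), Function.update (fun z => ξ z (L z)) x i)) +
          (1 - f (ξ x (L x))) / 2 * (hp (chS p f) N (x + vec (1, true),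
              Function.update (fun z => ξ z (L z)) x i) +
            hp (chS p f) N (x + vec (1, false), Function.update (fun z => ξ z (L z)) x i)))) = _
        rw [ENNReal.ofReal_sum_of_nonneg (fun i _ => mul_nonneg (hst.1 _ _)
          (add_nonneg (mul_nonneg (by linarith) (add_nonneg (n _) (n _)))
            (mul_nonneg (by linarith) (add_nonneg (n _) (n _)))))]
        rw [Finset.mul_sum, ← Finset.sum_add_distrib, ← Finset.sum_add_distrib,
          ← Finset.sum_add_distrib]
        refine Finset.sum_congr rfl fun i _ => ?_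
        rw [ENNReal.ofReal_mul (hst.1 _ _),
          ENNReal.ofReal_add (mul_nonneg (by linarith) (add_nonneg (n _) (n _)))
          (mul_nonneg (by linarith) (add_nonneg (n _) (n _))),
          ENNReal.ofReal_mul (by linarith), ENNReal.ofReal_mul (by linarith),
          ENNReal.ofReal_add (n _) (n _), ENNReal.ofReal_add (n _) (n _)]
        simp only [B, c0, c1]
        ring
      have hk := fun (e : Dir 2) (c : (Site 2 → ℕ → E) → ℝ≥0∞) (hc : Measurable c)
          (hcd : ∀ ξ ξ' : Site 2 → ℕ → E, (∀ z, ∀ j ≤ L z, ξ z j = ξ' z j) → c ξ = c ξ') =>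
        key hMKP hst hF N ih x (x + vec e) L (fun ξ => G ξ * c ξ) (hG.mul hc)
          (fun ξ ξ' h => by rw [hGL ξ ξ' h, hcd ξ ξ' h])
      rw [lintegral_congr hlhs, lintegral_congr hrhs]
      have hG0 : Measurable fun ξ => G ξ * c0 ξ := hG.mul hc0
      have hG1 : Measurable fun ξ => G ξ * c1 ξ := hG.mul hc1
      have ms : ∀ (c : (Site 2 → ℕ → E) → ℝ≥0∞), Measurable c → ∀ e, Measurable fun ξ =>
          ∑ i, c ξ * B e i ξ := fun c hc e =>
        Finset.measurable_sum _ fun i _ => hc.mul (hB e i)
      have hA0 : ∀ e, Measurable fun ξ => G ξ * c0 ξ * A e ξ := fun e => hG0.mul (hA e)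
      have hA1 : ∀ e, Measurable fun ξ => G ξ * c1 ξ * A e ξ := fun e => hG1.mul (hA e)
      have hA00 : Measurable fun ξ =>
        G ξ * c0 ξ * A (0, true) ξ + G ξ * c0 ξ * A (0, false) ξ := (hA0 _).add (hA0 _)
      have hB0 : ∀ e, Measurable fun ξ => ∑ i, G ξ * c0 ξ * B e i ξ := fun e => ms _ hG0 e
      have hB1 : ∀ e, Measurable fun ξ => ∑ i, G ξ * c1 ξ * B e i ξ := fun e => ms _ hG1 e
      have hB00 : Measurable fun ξ =>
        (∑ i, G ξ * c0 ξ * B (0, true) i ξ) + ∑ i, G ξ * c0 ξ * B (0, false) i ξ :=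
        (hB0 _).add (hB0 _)
      have fs0 : ∀ e, ∫⁻ ξ, ∑ i, G ξ * c0 ξ * B e i ξ ∂Q = ∑ i, ∫⁻ ξ, G ξ * c0 ξ * B e i ξ ∂Q :=
        fun e => lintegral_finsetSum _ fun i _ => hG0.mul (hB e i)
      have fs1 : ∀ e, ∫⁻ ξ, ∑ i, G ξ * c1 ξ * B e i ξ ∂Q = ∑ i, ∫⁻ ξ, G ξ * c1 ξ * B e i ξ ∂Q :=
        fun e => lintegral_finsetSum _ fun i _ => hG1.mul (hB e i)
      rw [lintegral_add_left hA00, lintegral_add_left (hA0 _), lintegral_add_left (hA1 _),
        lintegral_add_left hB00, lintegral_add_left (hB0 _), lintegral_add_left (hB1 _),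
        fs0, fs0, fs1, fs1]
      have k0 := fun e => hk e c0 hc0 fun ξ ξ' h => (hdep ξ ξ' h).1
      have k1 := fun e => hk e c1 hc1 fun ξ ξ' h => (hdep ξ ξ' h).2
      exact congrArg₂ (· + ·) (congrArg₂ (· + ·) (k0 (0, true)) (k0 (0, false)))
        (congrArg₂ (· + ·) (k1 (1, true)) (k1 (1, false)))

end Pool.Agent.Helper38.MKV
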